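import Pool.Agent.H37.Hf2

set_option autoImplicit false

open Pool.Agent.H37 Hf

theorem Pool.Agent.Results.MP_c13ef9_lc.Yes.result (V : Type) [Fintype V] (H : SimpleGraph V)
    (k : ℕ) (hH : H.edgeSet.ncard = k) (hk : 2 ≤ k) :
    (∀ ε : ℝ, 0 < ε → ε < 1 → ∀ n : ℕ, 2 ≤ n →
      (∃ m, 0 < m ∧ Tests (HFree n H) ε m) ∧ (sam (HFree n H) ε : ℝ) ≤
        9 * k / ε * (SimpleGraph.extremalNumber n H : ℝ) ^ (1 - 1 / (k : ℝ))) ∧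
    ∃ c : ℝ, 0 < c ∧ c < 1 ∧ ∀ ε : ℝ, 0 < ε → ε < 1 → ∃ C : ℝ, ∀ n : ℕ, 2 ≤ n →
      (sam (HFree n H) ε : ℝ) ≤ C * (SimpleGraph.extremalNumber n H : ℝ) ^ (1 - c) := by
  have key : ∀ ε : ℝ, 0 < ε → ε < 1 → ∀ n : ℕ, 2 ≤ n →
      (∃ m, 0 < m ∧ Tests (HFree n H) ε m) ∧ (sam (HFree n H) ε : ℝ) ≤
        9 * k / ε * (SimpleGraph.extremalNumber n H : ℝ) ^ (1 - 1 / (k : ℝ)) := by
    intro ε h0 h1 n hn
    obtain ⟨m, m0, hm, hb⟩ := Hf.main H k hH hk h0 h1 hn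
    refine ⟨⟨m, m0, hm⟩, le_trans ?_ hb⟩
    exact_mod_cast Nat.sInf_le (s := {m | 0 < m ∧ Tests (HFree n H) ε m}) ⟨m0, hm⟩
  have hk' : (2 : ℝ) ≤ k := by exact_mod_cast hk
  refine ⟨key, 1 / k, by positivity, ?_, fun ε h0 h1 => ⟨_, fun n hn => (key ε h0 h1 n hn).2⟩⟩
  rw [div_lt_one (by linarith)]; linarith
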